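import Pool.Agent.TH235.PQ.Final
import Pool.Agent.TH235.PQ.Equiv

/-!
PEPS approximation of gapped ground states on the torus, with no spectral hypothesis and at every
scale of the bond dimension.

Part (A), one torus, constants depending only on the local dimension, the interaction and the gap:
a locally purified mixed state of bond dimension `D₀` whose fidelity with the ground state is at
least `η`, or whose energy is at most `E₀ + Δ (1 - η)`, gives for every `ε` a PEPS within `ε` of the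
ground state with bond dimension at most `D₀ (L / (η ε)) ^ C`.

Part (B): for every scale function `g ≥ log` the following are equivalent for a gapped family: PEPS
of bond dimension `exp (O (g L))` with errors `exp (-a g L)` for every `a`; with an error bounded by
a constant smaller than one; overlap at least `exp (-C g L)`; the same for mixed states; energy
below `E₀ + Δ` by `Δ exp (-C g L)`.

Part (C): they hold if there is an inverse temperature `β = O (g L)` with `Z_β = exp (O (g L))`.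
-/

set_option autoImplicit false

open scoped BigOperators Matrix
open Finset Pool.Agent.TH235.PP Pool.Agent.Results.MP_953b23_mp.OverlapBoosting
  Pool.Agent.Results.MP_953b23_mp.ThermalCriterion

namespace Pool.Agent.Results.MP_953b23_mp.EveryScale

/-- For all large `L` the vector `Ψ L` is approximated within `δ L` in Hilbert-space norm by a PEPS
of bond dimension at most `exp (C * g L)`. -/
def ApproxAt {d : ℕ} (Ψ : ∀ L : ℕ, (Site L → Fin d) → ℂ) (g : ℕ → ℝ) (C : ℝ) (δ : ℕ → ℝ) : Prop :=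
  ∃ L₀ : ℕ, ∀ (L : ℕ) [NeZero L], L₀ ≤ L → ∃ (D : ℕ) (ψ : (Site L → Fin d) → ℂ),
    (D : ℝ) ≤ Real.exp (C * g L) ∧ IsPEPS D ψ ∧ Real.sqrt (normSq (ψ - Ψ L)) ≤ δ L

/-- For all large `L` some unit PEPS of bond dimension at most `exp (C * g L)` has overlap at
least `exp (-(C * g L))` with `Ψ L`. -/
def PureAt {d : ℕ} (Ψ : ∀ L : ℕ, (Site L → Fin d) → ℂ) (g : ℕ → ℝ) (C : ℝ) : Prop :=
  ∃ L₀ : ℕ, ∀ (L : ℕ) [NeZero L], L₀ ≤ L → ∃ (D : ℕ) (φ : (Site L → Fin d) → ℂ),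
    (D : ℝ) ≤ Real.exp (C * g L) ∧ IsPEPS D φ ∧ normSq φ = 1 ∧
      Real.exp (-(C * g L)) ≤ ‖ip (Ψ L) φ‖

/-- For all large `L` some locally purified mixed state of bond dimension at most `exp (C * g L)`
has fidelity at least `exp (-(C * g L))` with `Ψ L`. -/
def MixedAt {d : ℕ} (Ψ : ∀ L : ℕ, (Site L → Fin d) → ℂ) (g : ℕ → ℝ) (C : ℝ) : Prop :=
  ∃ L₀ : ℕ, ∀ (L : ℕ) [NeZero L], L₀ ≤ L →
    ∃ (a D : ℕ) (X : (Site L → Fin a) → (Site L → Fin d) → ℂ),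
      (D : ℝ) ≤ Real.exp (C * g L) ∧ IsPurified D X ∧ 0 < ∑ t, normSq (X t) ∧
        Real.exp (-(C * g L)) * ∑ t, normSq (X t) ≤ ∑ t, ‖ip (Ψ L) (X t)‖ ^ 2

/-- For all large `L` some locally purified mixed state of bond dimension at most `exp (C * g L)`
has energy at most `E₀ + Δ (1 - exp (-(C * g L)))`. -/
def LowAt {d R : ℕ} (h : BoxOp d R) (Δ : ℝ) (Ψ : ∀ L : ℕ, (Site L → Fin d) → ℂ) (g : ℕ → ℝ)
    (C : ℝ) : Prop :=
  ∃ L₀ : ℕ, ∀ (L : ℕ) [NeZero L], L₀ ≤ L →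
    ∃ (a D : ℕ) (X : (Site L → Fin a) → (Site L → Fin d) → ℂ),
      (D : ℝ) ≤ Real.exp (C * g L) ∧ IsPurified D X ∧ 0 < ∑ t, normSq (X t) ∧
        ∑ t, (ip (X t) (ham h L *ᵥ X t)).re ≤
          (energy (ham h L) (Ψ L) + Δ * (1 - Real.exp (-(C * g L)))) * ∑ t, normSq (X t)

/-- For all large `L` there is an inverse temperature `0 ≤ β ≤ C * g L` at which
`Tr exp (-β (H_L - E₀)) ≤ exp (C * g L)`. -/
def ThermalAt {d R : ℕ} (h : BoxOp d R) (Ψ : ∀ L : ℕ, (Site L → Fin d) → ℂ) (g : ℕ → ℝ)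
    (C : ℝ) : Prop :=
  ∃ L₀ : ℕ, ∀ (L : ℕ) [NeZero L], L₀ ≤ L → ∀ hH : (ham h L).IsHermitian,
    ∃ β : ℝ, 0 ≤ β ∧ β ≤ C * g L ∧
      partition hH (energy (ham h L) (Ψ L)) β ≤ Real.exp (C * g L)

section one

variable {d : ℕ} {L : ℕ} [NeZero L]

/-- A mixed state with fidelity at least `η` contains a pure one. -/
theorem pure_of_mixed {Ψ : (Site L → Fin d) → ℂ} {a D : ℕ}
    {X : (Site L → Fin a) → (Site L → Fin d) → ℂ} (hX : IsPurified D X) {η : ℝ} (hη : 0 < η)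
    (hη1 : η ≤ 1)
    (h3 : 0 < ∑ t, normSq (X t)) (h4 : η * ∑ t, normSq (X t) ≤ ∑ t, ‖ip Ψ (X t)‖ ^ 2) :
    ∃ φ : (Site L → Fin d) → ℂ, IsPEPS D φ ∧ normSq φ = 1 ∧ η ≤ ‖ip Ψ φ‖ := by
  obtain ⟨A, hA⟩ := hX
  obtain ⟨t, ht0, ht⟩ : ∃ t, 0 < normSq (X t) ∧ η * normSq (X t) ≤ ‖ip Ψ (X t)‖ ^ 2 := by
    by_contra hcon
    push Not at hcon
    have hle : ∀ t, ‖ip Ψ (X t)‖ ^ 2 ≤ η * normSq (X t) := by
      intro t
      rcases (normSq_nonneg (X t)).lt_or_eq with h5 | h5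
      · exact (hcon t h5).le
      · have h6 : nr (X t) = 0 := by
          have := nr_sq (X t)
          rw [← h5] at this
          exact pow_eq_zero_iff (two_ne_zero) |>.1 this
        have h7 : ‖ip Ψ (X t)‖ ≤ 0 := by
          rw [ip_eq]
          refine (norm_inner_le_norm _ _).trans ?_
          have k2 : ‖(WithLp.toLp 2 (X t) : EuclideanSpace ℂ (Site L → Fin d))‖ = 0 := h6
          rw [k2, mul_zero]
        have h8 : ‖ip Ψ (X t)‖ = 0 := le_antisymm h7 (norm_nonneg _)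
        rw [h8, ← h5]
        simp
    obtain ⟨t, ht⟩ : ∃ t, 0 < normSq (X t) := by
      by_contra hc
      push Not at hc
      exact absurd h3 (not_lt.2 (Finset.sum_nonpos fun t _ => hc t))
    have hlt : ∑ t, ‖ip Ψ (X t)‖ ^ 2 < ∑ t, η * normSq (X t) :=
      Finset.sum_lt_sum (fun t _ => hle t) ⟨t, mem_univ t, hcon t ht⟩
    rw [← Finset.mul_sum] at hlt
    exact absurd h4 (not_le.2 hlt)
  have hpeps : IsPEPS D (X t) := ⟨fun x i => A x i (t x), hA t⟩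
  have hnr : 0 < nr (X t) := by
    rcases (nr_nonneg (X t)).lt_or_eq with h5 | h5
    · exact h5
    · exfalso
      have := nr_sq (X t)
      rw [← h5] at this
      rw [← this] at ht0
      simp at ht0
  obtain ⟨u1, u2, u3⟩ := unit_of hpeps hnr
  refine ⟨_, u1, u2, ?_⟩
  rw [u3, le_div_iff₀ hnr]
  apply le_of_sq_le_sq _ (norm_nonneg _)
  refine le_trans ?_ ht
  rw [mul_pow, nr_sq]
  refine mul_le_mul_of_nonneg_right ?_ ht0.le
  nlinarith only [hη, hη1]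

/-- Low energy gives fidelity. -/
theorem mixed_of_low {R : ℕ} {h : BoxOp d R} (hh : h.IsHermitian) {Δ : ℝ} (hΔ : 0 < Δ)
    {Ψ : (Site L → Fin d) → ℂ} (hn : normSq Ψ = 1) (hg : IsGappedGround (ham h L) Δ Ψ)
    {a : ℕ} {X : (Site L → Fin a) → (Site L → Fin d) → ℂ} {η : ℝ}
    (h4 : ∑ t, (ip (X t) (ham h L *ᵥ X t)).re ≤
      (energy (ham h L) Ψ + Δ * (1 - η)) * ∑ t, normSq (X t)) :
    η * ∑ t, normSq (X t) ≤ ∑ t, ‖ip Ψ (X t)‖ ^ 2 := by
  have h5 : ∑ t, ((ip Ψ (ham h L *ᵥ Ψ)).re * normSq (X t) +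
      Δ * (normSq (X t) - ‖ip Ψ (X t)‖ ^ 2)) ≤ ∑ t, (ip (X t) (ham h L *ᵥ X t)).re :=
    Finset.sum_le_sum fun t _ => gap_ineq (ham h L) (ham_herm h hh) Δ hΔ Ψ hn hg (X t)
  rw [Finset.sum_add_distrib, ← Finset.mul_sum, ← Finset.mul_sum, Finset.sum_sub_distrib] at h5
  have h6 := h5.trans h4
  unfold energy at h6
  have h7 : Δ * (η * ∑ t, normSq (X t)) ≤ Δ * ∑ t, ‖ip Ψ (X t)‖ ^ 2 := by
    nlinarith only [h6]
  exact le_of_mul_le_mul_left h7 hΔ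

omit [NeZero L] in
theorem exp_eq_rpow {D0 : ℕ} {C η ε : ℝ} (hL : 2 ≤ L) (hη : 0 < η) (hε : 0 < ε) :
    (D0 : ℝ) * Real.exp (C * (Real.log L + Real.log (1 / (η * ε)))) =
      D0 * ((L : ℝ) / (η * ε)) ^ C := by
  have hL0 : (0 : ℝ) < L := by
    have : 0 < L := by omega
    exact_mod_cast this
  have hηε : 0 < η * ε := by positivity
  rw [Real.rpow_def_of_pos (by positivity), ← Real.log_mul hL0.ne' (by positivity), mul_comm C]
  congr 4
  rw [mul_one_div]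

end one

section family

variable {d R : ℕ} {h : BoxOp d R} {Δ : ℝ} {Ψ : ∀ L : ℕ, (Site L → Fin d) → ℂ} {g : ℕ → ℝ}

/-- overlap gives tiny errors at the same scale -/
theorem pure_to_tiny (hF : GappedFamily h Δ Ψ) (hg : ∃ L₁ : ℕ, ∀ L, L₁ ≤ L → Real.log L ≤ g L)
    (hP : ∃ C, PureAt Ψ g C) (a : ℝ) (ha : 0 ≤ a) :
    ∃ C, ApproxAt Ψ g C fun L => Real.exp (-(a * g L)) := by
  obtain ⟨R', rfl⟩ : ∃ R', R = R' + 1 := ⟨R - 1, by have := hF.range_pos; omega⟩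
  obtain ⟨C, hC, hq⟩ :=
    Pool.Agent.TH235.PQ.amp_all Pool.Agent.TH235.PQ.amp0 d R' h hF.herm Δ hF.gap_pos
  obtain ⟨L₁, hL₁⟩ := hF.ground
  obtain ⟨C', L₂, hL₂⟩ := hP
  obtain ⟨L₃, hL₃⟩ := hg
  refine ⟨|C'| + C * (1 + |C'| + a), max 3 (max L₁ (max L₂ L₃)), ?_⟩
  intro L _ hL
  simp only [max_le_iff] at hL
  obtain ⟨h3, ha', hb, hc⟩ := hL
  obtain ⟨hn, hgr⟩ := hL₁ L ha'
  obtain ⟨D0, φ, hD0, hφ, hφ1, hov⟩ := hL₂ L hb
  have hl1 := log_ge_one h3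
  have hgl := hL₃ L hc
  obtain ⟨D, ψ, hD, hψ, herr⟩ := hq L (by omega) (Ψ L) hn hgr D0 φ hφ hφ1
    (Real.exp (-(C' * g L))) (Real.exp (-(a * g L))) (Real.exp_pos _) hov
    (Real.exp_pos _) (Real.exp_le_one_iff.2 (by
      have : 0 ≤ a * g L := mul_nonneg ha (by linarith)
      linarith))
  refine ⟨D, ψ, hD.trans ?_, hψ, by rw [sqrt_normSq]; exact herr⟩
  have hlog : Real.log (1 / (Real.exp (-(C' * g L)) * Real.exp (-(a * g L)))) =
      C' * g L + a * g L := by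
    rw [← Real.exp_add, one_div, ← Real.exp_neg, Real.log_exp]
    ring
  rw [hlog]
  generalize Real.log L = l at hl1 hgl ⊢
  generalize g L = γ at hD0 hgl ⊢
  have hγ0 : 0 ≤ γ := by linarith
  have hCk : C' * γ ≤ |C'| * γ := mul_le_mul_of_nonneg_right (le_abs_self _) hγ0
  have hsum : l + (C' * γ + a * γ) ≤ (1 + |C'| + a) * γ := by
    have e : (1 + |C'| + a) * γ = γ + |C'| * γ + a * γ := by ring
    rw [e]; linarith
  calc (D0 : ℝ) * Real.exp (C * (l + (C' * γ + a * γ)))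
      ≤ Real.exp (|C'| * γ) * Real.exp (C * ((1 + |C'| + a) * γ)) := by
        refine mul_le_mul (hD0.trans (Real.exp_le_exp.2 hCk)) (Real.exp_le_exp.2 ?_)
          (Real.exp_pos _).le (Real.exp_pos _).le
        exact mul_le_mul_of_nonneg_left hsum hC.le
    _ = Real.exp ((|C'| + C * (1 + |C'| + a)) * γ) := by
        rw [← Real.exp_add]
        congr 1
        ring

/-- a constant error smaller than one gives overlap -/
theorem const_to_pure (hF : GappedFamily h Δ Ψ) (hg : ∃ L₁ : ℕ, ∀ L, L₁ ≤ L → Real.log L ≤ g L)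
    {δ : ℝ} (hδ : δ < 1) {C : ℝ} (hA : ApproxAt Ψ g C fun _ => δ) : ∃ C, PureAt Ψ g C := by
  obtain ⟨L₁, hL₁⟩ := hF.ground
  obtain ⟨L₂, hL₂⟩ := hA
  obtain ⟨L₃, hL₃⟩ := hg
  have hk0 : 0 < (1 - δ) / 2 := by linarith
  refine ⟨|C| + |Real.log ((1 - δ) / 2)|, max 3 (max L₁ (max L₂ L₃)), ?_⟩
  intro L _ hL
  simp only [max_le_iff] at hL
  obtain ⟨h3, ha, hb, hc'⟩ := hL
  obtain ⟨hn, -⟩ := hL₁ L ha
  obtain ⟨D, ψ, hD, hψ, herr⟩ := hL₂ L hb
  rw [sqrt_normSq] at herr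
  beta_reduce at herr
  have hγ1 : 1 ≤ g L := (log_ge_one h3).trans (hL₃ L hc')
  have h1 : nr (Ψ L) = 1 := nr_one _ hn
  have h2 : nr ψ ≤ 2 := by
    have := nr_add (ψ - Ψ L) (Ψ L)
    rw [sub_add_cancel] at this
    linarith
  have h4 : ip (Ψ L) ψ = ip (Ψ L) (ψ - Ψ L) + 1 := by
    rw [← ip_self_one (Ψ L) hn, ip_eq, ip_eq, ip_eq, ← inner_add_right, ← WithLp.toLp_add,
      sub_add_cancel]
  have h5 : ‖ip (Ψ L) (ψ - Ψ L)‖ ≤ δ := by
    rw [ip_eq]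
    refine (norm_inner_le_norm _ _).trans ?_
    have k1 : ‖(WithLp.toLp 2 (Ψ L) : EuclideanSpace ℂ (Site L → Fin d))‖ = 1 := h1
    rw [k1, one_mul]
    exact herr
  have h6 : 1 - δ ≤ ‖ip (Ψ L) ψ‖ := by
    have e : (1 : ℂ) = -ip (Ψ L) (ψ - Ψ L) + ip (Ψ L) ψ := by rw [h4]; ring
    have := norm_add_le (-ip (Ψ L) (ψ - Ψ L)) (ip (Ψ L) ψ)
    rw [← e, norm_one, norm_neg] at this
    linarith
  have h7 : 0 < nr ψ := by
    rcases (nr_nonneg ψ).lt_or_eq with h8 | h8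
    · exact h8
    · exfalso
      have h9 : ‖ip (Ψ L) ψ‖ ≤ nr (Ψ L) * nr ψ := by
        rw [ip_eq]
        exact norm_inner_le_norm _ _
      rw [← h8, mul_zero] at h9
      linarith
  obtain ⟨u1, u2, u3⟩ := unit_of hψ h7
  have hAC := abs_nonneg C
  have hAl := abs_nonneg (Real.log ((1 - δ) / 2))
  refine ⟨D, _, hD.trans (Real.exp_le_exp.2 ?_), u1, u2, ?_⟩
  · exact mul_le_mul_of_nonneg_right (by linarith [le_abs_self C]) (by linarith)
  · rw [u3, le_div_iff₀ h7]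
    have h8 : Real.exp (-((|C| + |Real.log ((1 - δ) / 2)|) * g L)) ≤ (1 - δ) / 2 := by
      rw [← Real.exp_log hk0]
      refine Real.exp_le_exp.2 ?_
      rw [Real.exp_log hk0]
      have h9 : |Real.log ((1 - δ) / 2)| * 1 ≤ (|C| + |Real.log ((1 - δ) / 2)|) * g L :=
        mul_le_mul (by linarith) hγ1 zero_le_one (by linarith)
      linarith [neg_abs_le (Real.log ((1 - δ) / 2))]
    calc Real.exp (-((|C| + |Real.log ((1 - δ) / 2)|) * g L)) * nr ψ ≤ (1 - δ) / 2 * 2 :=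
          mul_le_mul h8 h2 h7.le hk0.le
      _ ≤ ‖ip (Ψ L) ψ‖ := by linarith

/-- mixed overlap gives pure overlap -/
theorem mixed_to_pureAt (hg : ∃ L₁ : ℕ, ∀ L, L₁ ≤ L → Real.log L ≤ g L)
    (hA : ∃ C, MixedAt Ψ g C) : ∃ C, PureAt Ψ g C := by
  obtain ⟨C, L₂, hL₂⟩ := hA
  obtain ⟨L₃, hL₃⟩ := hg
  refine ⟨|C|, max 3 (max L₂ L₃), ?_⟩
  intro L _ hL
  simp only [max_le_iff] at hL
  obtain ⟨h3, hb, hc'⟩ := hL
  obtain ⟨a, D, X, h1, hX, h4, h5⟩ := hL₂ L hb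
  have hγ1 : 1 ≤ g L := (log_ge_one h3).trans (hL₃ L hc')
  have hle : C * g L ≤ |C| * g L := mul_le_mul_of_nonneg_right (le_abs_self _) (by linarith)
  have hS : Real.exp (-(|C| * g L)) * ∑ t, normSq (X t) ≤ ∑ t, ‖ip (Ψ L) (X t)‖ ^ 2 :=
    (mul_le_mul_of_nonneg_right (Real.exp_le_exp.2 (by linarith)) h4.le).trans h5
  obtain ⟨φ, e1, e2, e3⟩ := pure_of_mixed hX (Real.exp_pos (-(|C| * g L)))
    (Real.exp_le_one_iff.2 (by
      have : 0 ≤ |C| * g L := mul_nonneg (abs_nonneg _) (by linarith)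
      linarith)) h4 hS
  exact ⟨D, φ, h1.trans (Real.exp_le_exp.2 hle), e1, e2, e3⟩

/-- low energy gives mixed overlap -/
theorem low_to_mixedAt (hF : GappedFamily h Δ Ψ) (hA : ∃ C, LowAt h Δ Ψ g C) :
    ∃ C, MixedAt Ψ g C := by
  obtain ⟨L₁, hL₁⟩ := hF.ground
  obtain ⟨C, L₂, hL₂⟩ := hA
  refine ⟨C, max L₁ L₂, ?_⟩
  intro L _ hL
  obtain ⟨hn, hg⟩ := hL₁ L ((le_max_left _ _).trans hL)
  obtain ⟨a, D, X, h1, h2, h3, h4⟩ := hL₂ L ((le_max_right _ _).trans hL)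
  exact ⟨a, D, X, h1, h2, h3, mixed_of_low hF.herm hF.gap_pos hn hg h4⟩

/-- tiny errors give low energy -/
theorem tiny_to_low (hF : GappedFamily h Δ Ψ) (hg : ∃ L₁ : ℕ, ∀ L, L₁ ≤ L → Real.log L ≤ g L)
    (hA : ∃ C, ApproxAt Ψ g C fun L => Real.exp (-(2 * g L))) : ∃ C, LowAt h Δ Ψ g C := by
  obtain ⟨L₁, hL₁⟩ := hF.ground
  obtain ⟨C, L₂, hL₂⟩ := hA
  obtain ⟨L₄, hL₄⟩ := hg
  have hJ0 := nJ_nonneg h
  have hΔ := hF.gap_pos
  obtain ⟨L₃, hL₃⟩ := rpow_small 2 (by norm_num)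
    (min (1 / 4) (Δ / (16 * (nJ h + 1)))) (lt_min (by norm_num) (by positivity))
  refine ⟨|C| + 1, max 3 (max L₁ (max L₂ (max L₃ L₄))), ?_⟩
  intro L _ hL
  simp only [max_le_iff] at hL
  obtain ⟨h3, ha, hb, hc', hd'⟩ := hL
  obtain ⟨hn, hgr⟩ := hL₁ L ha
  obtain ⟨D, ψ, hD, hψ, herr0⟩ := hL₂ L hb
  rw [sqrt_normSq] at herr0
  beta_reduce at herr0
  have hLpos : (0 : ℝ) < L := by
    have : (3 : ℝ) ≤ L := by exact_mod_cast h3
    linarith
  have hgl := hL₄ L hd'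
  have herr : nr (ψ - Ψ L) ≤ (L : ℝ) ^ (-(2 : ℝ)) := by
    refine herr0.trans ?_
    rw [Real.rpow_def_of_pos hLpos]
    exact Real.exp_le_exp.2 (by linarith)
  have hs := hL₃ L hc'
  obtain ⟨n1, n2, n3⟩ := near (Ψ L) ψ hn (herr.trans (hs.trans (min_le_left _ _)))
  have hγ1 : 1 ≤ g L := (log_ge_one h3).trans hgl
  have hsum : ∀ f : ((Site L → Fin d) → ℂ) → ℝ,
      ∑ _t : Site L → Fin 1, f ψ = f ψ := by
    intro f
    rw [Finset.sum_const, Finset.card_univ]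
    simp
  have hn9 : 9 / 16 ≤ normSq ψ := by
    rw [← nr_sq]
    nlinarith only [n1]
  refine ⟨1, D, fun _ => ψ, hD.trans (Real.exp_le_exp.2 ?_), ?_, ?_, ?_⟩
  · have := le_abs_self C
    nlinarith only [this, hγ1, abs_nonneg C]
  · obtain ⟨A, hA⟩ := hψ
    exact ⟨fun x i _ => A x i, fun _ => hA⟩
  · rw [hsum fun ψ => normSq ψ]
    linarith
  · rw [hsum fun ψ => normSq ψ, hsum fun ψ => (ip ψ (ham h L *ᵥ ψ)).re]
    unfold energy
    have h4 := ener_upper (ham h L) (ham_herm h hF.herm) Δ (Ψ L) hn hgr ψ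
    have h5 := norm_ham (L := L) h
    refine h4.trans ?_
    have h7 : normSq (ψ - Ψ L) ≤ ((L : ℝ) ^ (-(2 : ℝ))) ^ 2 := by
      rw [← nr_sq]
      exact pow_le_pow_left₀ (nr_nonneg _) herr 2
    have h8 : (L : ℝ) ^ (-(2 : ℝ)) * (L : ℝ) ^ 2 = 1 := by
      rw [Real.rpow_neg hLpos.le, Real.rpow_two]
      field_simp
    have h9 : 0 < (L : ℝ) ^ (-(2 : ℝ)) := Real.rpow_pos_of_pos hLpos _
    generalize (L : ℝ) ^ (-(2 : ℝ)) = ρ at *
    have h10 : Real.exp (-((|C| + 1) * g L)) ≤ 2 / 5 := by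
      refine le_trans (Real.exp_le_exp.2 ?_) exp_neg_one_lt
      nlinarith only [mul_nonneg (abs_nonneg C) (by linarith : (0 : ℝ) ≤ g L), hγ1]
    have h11 : ρ * (16 * (nJ h + 1)) ≤ Δ := by
      have := hs.trans (min_le_right _ _)
      rwa [le_div_iff₀ (by positivity)] at this
    have h12 : 2 * (((L : ℝ) ^ 2) * nJ h) * ρ ^ 2 ≤ Δ / 8 := by
      have e : 2 * (((L : ℝ) ^ 2) * nJ h) * ρ ^ 2 = 2 * nJ h * ρ * (ρ * (L : ℝ) ^ 2) := by ring
      rw [e, h8, mul_one]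
      nlinarith only [h11, h9]
    have hnn := normSq_nonneg (ψ - Ψ L)
    have hA0 := hJ0
    have h13 : 2 * (((L : ℝ) ^ 2) * nJ h) * normSq (ψ - Ψ L) ≤ Δ / 8 :=
      le_trans (mul_le_mul_of_nonneg_left h7 (by positivity)) h12
    have h14 := mul_le_mul_of_nonneg_right (mul_le_mul_of_nonneg_left h5 (by norm_num : (0:ℝ) ≤ 2))
      hnn
    have h15 : Δ * (3 / 5) * (9 / 16) ≤
        Δ * (1 - Real.exp (-((|C| + 1) * g L))) * normSq ψ := by
      refine mul_le_mul ?_ hn9 (by norm_num) ?_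
      · exact mul_le_mul_of_nonneg_left (by linarith) hΔ.le
      · exact mul_nonneg hΔ.le (by linarith)
    rw [add_mul]
    linarith

/-- a small partition function gives PEPS at the same scale -/
theorem thermal_to_tiny (hF : GappedFamily h Δ Ψ)
    (hg : ∃ L₁ : ℕ, ∀ L, L₁ ≤ L → Real.log L ≤ g L) {C : ℝ} (hS : ThermalAt h Ψ g C)
    (a : ℝ) (ha : 0 ≤ a) : ∃ C' : ℝ, ApproxAt Ψ g C' fun L => Real.exp (-(a * g L)) := by
  obtain ⟨R', rfl⟩ : ∃ R', R = R' + 1 := ⟨R - 1, by have := hF.range_pos; omega⟩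
  obtain ⟨C0, hC0, hq⟩ :=
    Pool.Agent.TH235.PQ.therm_all Pool.Agent.TH235.PQ.therm0 d R' h hF.herm Δ hF.gap_pos
  obtain ⟨L₁, hL₁⟩ := hF.ground
  obtain ⟨L₂, hL₂⟩ := hS
  obtain ⟨L₃, hL₃⟩ := hg
  refine ⟨C0 * (2 * |C| + 1 + a), max 3 (max L₁ (max L₂ L₃)), ?_⟩
  intro L _ hL
  simp only [max_le_iff] at hL
  obtain ⟨h3, ha', hb, hc⟩ := hL
  obtain ⟨hn, hgr⟩ := hL₁ L ha'
  have hH := ham_herm (L := L) h hF.herm
  obtain ⟨β, hβ0, hβ, hZ⟩ := hL₂ L hb hH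
  have hl1 := log_ge_one h3
  have hgl := hL₃ L hc
  have hexp1 : Real.exp (-(a * g L)) ≤ 1 := Real.exp_le_one_iff.2 (by
    have : 0 ≤ a * g L := mul_nonneg ha (by linarith)
    linarith)
  obtain ⟨D, ψ, hD, hψ, herr⟩ := hq L (by omega) (Ψ L) hn hgr hH β
    (Real.exp (-(a * g L))) hβ0 (Real.exp_pos _) hexp1
  refine ⟨D, ψ, hD.trans (Real.exp_le_exp.2 ?_), hψ, by rw [sqrt_normSq]; exact herr⟩
  obtain ⟨e1, j0, e2⟩ := energy_le hH hF.gap_pos hn hgr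
  have hZ1 : 1 ≤ partition hH (energy (ham h L) (Ψ L)) β := by
    unfold partition
    have h1 := Finset.single_le_sum (f := fun j => Real.exp (-(β * (hH.eigenvalues j -
      energy (ham h L) (Ψ L))))) (fun j _ => (Real.exp_pos _).le) (mem_univ j0)
    refine le_trans (le_of_eq ?_) h1
    rw [e2]
    simp
  generalize partition hH (energy (ham h L) (Ψ L)) β = Z at hZ hZ1 ⊢
  have hW : Real.log Z ≤ C * g L := by
    have := Real.log_le_log (by linarith) hZ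
    rwa [Real.log_exp] at this
  have hlog : Real.log (1 / Real.exp (-(a * g L))) = a * g L := by
    rw [one_div, ← Real.exp_neg, Real.log_exp, neg_neg]
  rw [hlog]
  generalize Real.log Z = W at hW ⊢
  generalize Real.log L = l at hl1 hgl ⊢
  generalize g L = γ at hβ hgl hW ⊢
  have hCk : C * γ ≤ |C| * γ := mul_le_mul_of_nonneg_right (le_abs_self _) (by linarith)
  have hsum : β + l + W + a * γ ≤ (2 * |C| + 1 + a) * γ := by
    have e : (2 * |C| + 1 + a) * γ = 2 * (|C| * γ) + γ + a * γ := by ring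
    rw [e]; linarith
  calc C0 * (β + l + W + a * γ) ≤ C0 * ((2 * |C| + 1 + a) * γ) :=
        mul_le_mul_of_nonneg_left hsum hC0.le
    _ = C0 * (2 * |C| + 1 + a) * γ := by ring

end family

/-- (A) On one torus: a locally purified mixed state of bond dimension `D₀` with fidelity at least
`η`, or with energy at most `E₀ + Δ (1 - η)`, gives PEPS of bond dimension at most
`D₀ (L / (η ε)) ^ C` within `ε` of the ground state. (B) Equivalent forms at every scale `g ≥ log`.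
(C) Small partition functions suffice, at every scale. -/
theorem result :
    (∀ (d R : ℕ) (h : BoxOp d (R + 1)), h.IsHermitian → ∀ Δ : ℝ, 0 < Δ →
      ∃ C : ℝ, 0 < C ∧ ∀ (L : ℕ) [NeZero L], 2 ≤ L →
        ∀ Ψ : (Site L → Fin d) → ℂ, normSq Ψ = 1 → IsGappedGround (ham h L) Δ Ψ →
        ∀ (a D₀ : ℕ) (X : (Site L → Fin a) → (Site L → Fin d) → ℂ), IsPurified D₀ X →
        0 < ∑ t, normSq (X t) → ∀ η ε : ℝ, 0 < η → η ≤ 1 → 0 < ε → ε ≤ 1 →
        (η * ∑ t, normSq (X t) ≤ ∑ t, ‖ip Ψ (X t)‖ ^ 2 ∨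
          ∑ t, (ip (X t) (ham h L *ᵥ X t)).re ≤
            (energy (ham h L) Ψ + Δ * (1 - η)) * ∑ t, normSq (X t)) →
        ∃ (D : ℕ) (ψ : (Site L → Fin d) → ℂ), (D : ℝ) ≤ D₀ * ((L : ℝ) / (η * ε)) ^ C ∧
          IsPEPS D ψ ∧ Real.sqrt (normSq (ψ - Ψ)) ≤ ε) ∧
    (∀ (d R : ℕ) (h : BoxOp d R) (Δ : ℝ) (Ψ : ∀ L : ℕ, (Site L → Fin d) → ℂ),
      GappedFamily h Δ Ψ → ∀ g : ℕ → ℝ, (∃ L₁ : ℕ, ∀ L, L₁ ≤ L → Real.log L ≤ g L) →
      List.TFAE [
        ∀ a : ℝ, 0 < a → ∃ C : ℝ, ApproxAt Ψ g C fun L => Real.exp (-(a * g L)),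
        ∃ δ : ℝ, δ < 1 ∧ ∃ C : ℝ, ApproxAt Ψ g C fun _ => δ,
        ∃ C : ℝ, PureAt Ψ g C,
        ∃ C : ℝ, MixedAt Ψ g C,
        ∃ C : ℝ, LowAt h Δ Ψ g C]) ∧
    (∀ (d R : ℕ) (h : BoxOp d R) (Δ : ℝ) (Ψ : ∀ L : ℕ, (Site L → Fin d) → ℂ),
      GappedFamily h Δ Ψ → ∀ g : ℕ → ℝ, (∃ L₁ : ℕ, ∀ L, L₁ ≤ L → Real.log L ≤ g L) →
      (∃ C : ℝ, ThermalAt h Ψ g C) →
      ∀ a : ℝ, 0 < a → ∃ C : ℝ, ApproxAt Ψ g C fun L => Real.exp (-(a * g L))) := by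
  refine ⟨?_, ?_, ?_⟩
  · intro d R h hh Δ hΔ
    obtain ⟨C, hC, hq⟩ :=
      Pool.Agent.TH235.PQ.amp_all Pool.Agent.TH235.PQ.amp0 d R h hh Δ hΔ
    refine ⟨C, hC, ?_⟩
    intro L _ hL Ψ hΨ hgr a D₀ X hX hX0 η ε hη hη1 hε hε1 hor
    have hfid : η * ∑ t, normSq (X t) ≤ ∑ t, ‖ip Ψ (X t)‖ ^ 2 := by
      rcases hor with h1 | h1
      · exact h1
      · exact mixed_of_low hh hΔ hΨ hgr h1
    obtain ⟨φ, e1, e2, e3⟩ := pure_of_mixed hX hη hη1 hX0 hfid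
    obtain ⟨D, ψ, hD, hψ, herr⟩ := hq L hL Ψ hΨ hgr D₀ φ e1 e2 η ε hη e3 hε hε1
    rw [exp_eq_rpow hL hη hε] at hD
    exact ⟨D, ψ, hD, hψ, by rw [sqrt_normSq]; exact herr⟩
  · intro d R h Δ Ψ hF g hg
    tfae_have 1 → 2 := by
      intro h1
      obtain ⟨C, L₀, hC⟩ := h1 1 one_pos
      obtain ⟨L₁, hL₁⟩ := hg
      refine ⟨1 / 2, by norm_num, C, max 3 (max L₀ L₁), ?_⟩
      intro L _ hL
      simp only [max_le_iff] at hL
      obtain ⟨h3, h4, h5⟩ := hL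
      obtain ⟨D, ψ, e1, e2, e3⟩ := hC L h4
      refine ⟨D, ψ, e1, e2, e3.trans ?_⟩
      have hγ : 1 ≤ g L := (log_ge_one h3).trans (hL₁ L h5)
      have h6 : Real.exp (-(1 * g L)) ≤ Real.exp (-1) := Real.exp_le_exp.2 (by linarith)
      exact h6.trans (exp_neg_one_lt.trans (by norm_num))
    tfae_have 2 → 3 := fun ⟨_, hδ, _, hA⟩ => const_to_pure hF hg hδ hA
    tfae_have 3 → 1 := fun h3 a ha => pure_to_tiny hF hg h3 a ha.le
    tfae_have 4 → 3 := mixed_to_pureAt hg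
    tfae_have 5 → 4 := low_to_mixedAt hF
    tfae_have 1 → 5 := fun h1 => tiny_to_low hF hg (h1 2 (by norm_num))
    tfae_finish
  · intro d R h Δ Ψ hF g hg ⟨C, hC⟩ a ha
    exact thermal_to_tiny hF hg hC a ha.le

end Pool.Agent.Results.MP_953b23_mp.EveryScale
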