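import Pool.Agent.Q204.SY.Fam

/-!
# Gapped ground states on the torus: exact symmetries, and only symmetric observables

On-site symmetries (a finite group `G` acting by a unitary representation `U` on every site, and a
charge `∑_x q(s_x)`) and translations.

Part (A), one torus, no gap: a unit vector in a symmetry sector (eigenvector of all `U(g)^{⊗ L²}` and
of all translations, of definite total charge) which is approximated by a PEPS of bond dimension `D`
with arbitrary tensors is approximated at least as well by a PEPS in exactly the same sector, with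
the same tensor at all sites but one, of bond dimension `D |G| (m L² + 1) L²`, where `m = max q`.

Part (B): for a gapped family whose interaction has the symmetries, the ground states lie in such
sectors, and for every scale function `g ≥ log` the following are equivalent: PEPS of bond dimension
`exp (O (g L))` with errors `exp (-a g L)` for every `a`; the same with PEPS in exactly the sector of
the ground state; locally purified mixed states of bond dimension `exp (O (g L))` (no symmetry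
assumed) whose expectations of the SYMMETRIC Hermitian operators of norm at most one on the
translates of the support of the interaction are within `κ / L²` of those of the ground state, for
every `κ > 0`; the same for one `κ` with `κ ‖h‖ < Δ`.
-/

set_option autoImplicit false

open scoped BigOperators Matrix Matrix.Norms.L2Operator
open Finset Pool.Agent.TH235.PP Pool.Agent.Results.MP_953b23_mp.OverlapBoosting
  Pool.Agent.Results.MP_953b23_mp.ThermalCriterion Pool.Agent.Results.MP_953b23_mp.EveryScale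
  Pool.Agent.Q204.TS Pool.Agent.Q204.SY

namespace Pool.Agent.Results.MP_953b23_mp.SymmetricApproximation

theorem butOne_isPEPS {d L : ℕ} [NeZero L] {D : ℕ} {ψ : (Site L → Fin d) → ℂ}
    (h : IsTIButOne D ψ) : IsPEPS D ψ := by
  obtain ⟨A, A₀, hA⟩ := h
  exact ⟨_, hA⟩

theorem unit_mul {d : ℕ} {G : Type} [Group G] (U : G →* Matrix.unitaryGroup (Fin d) ℂ) (g h : G) :
    ((U (g * h) : Matrix.unitaryGroup (Fin d) ℂ) : Matrix (Fin d) (Fin d) ℂ) =
      (U g : Matrix (Fin d) (Fin d) ℂ) * (U h : Matrix (Fin d) (Fin d) ℂ) := by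
  rw [map_mul]
  rfl

theorem unit_star {d : ℕ} {G : Type} [Group G] (U : G →* Matrix.unitaryGroup (Fin d) ℂ) (g : G) :
    ((U g : Matrix (Fin d) (Fin d) ℂ))ᴴ * (U g : Matrix (Fin d) (Fin d) ℂ) = 1 := by
  have := (U g).2
  rw [Matrix.mem_unitaryGroup_iff'] at this
  exact this

theorem result :
    (∀ (d L : ℕ) [NeZero L] (G : Type) [Group G] [Fintype G]
      (U : G →* Matrix.unitaryGroup (Fin d) ℂ) (q : Fin d → ℕ) (m : ℕ), (∀ a, q a ≤ m) →
      (∀ g a b, (U g : Matrix (Fin d) (Fin d) ℂ) a b ≠ 0 → q a = q b) →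
      ∀ (D : ℕ) (ψ Ψ : (Site L → Fin d) → ℂ), IsPEPS D ψ → normSq Ψ = 1 →
      SameSectors (fun g => (U g : Matrix (Fin d) (Fin d) ℂ)) q Ψ Ψ →
      ∃ ψ' : (Site L → Fin d) → ℂ,
        IsTIButOne (D * Fintype.card G * (m * L ^ 2 + 1) * L ^ 2) ψ' ∧
        Real.sqrt (normSq (ψ' - Ψ)) ≤ Real.sqrt (normSq (ψ - Ψ)) ∧
        SameSectors (fun g => (U g : Matrix (Fin d) (Fin d) ℂ)) q Ψ ψ') ∧
    (∀ (d R : ℕ) (h : BoxOp d R) (Δ : ℝ) (Ψ : ∀ L : ℕ, (Site L → Fin d) → ℂ),
      GappedFamily h Δ Ψ → ∀ (G : Type) [Group G] [Fintype G]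
      (U : G →* Matrix.unitaryGroup (Fin d) ℂ) (q : Fin d → ℕ),
      (∀ g a b, (U g : Matrix (Fin d) (Fin d) ℂ) a b ≠ 0 → q a = q b) →
      IsSym (fun g => (U g : Matrix (Fin d) (Fin d) ℂ)) q h →
      (∃ L₀ : ℕ, ∀ (L : ℕ) [NeZero L], L₀ ≤ L →
        SameSectors (fun g => (U g : Matrix (Fin d) (Fin d) ℂ)) q (Ψ L) (Ψ L)) ∧
      ∀ g : ℕ → ℝ, (∃ L₁ : ℕ, ∀ L, L₁ ≤ L → Real.log L ≤ g L) →
      List.TFAE [
        ∀ a : ℝ, 0 < a → ∃ C : ℝ, ApproxAt Ψ g C fun L => Real.exp (-(a * g L)),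
        ∀ a : ℝ, 0 < a → ∃ C : ℝ, SectorAt (fun g => (U g : Matrix (Fin d) (Fin d) ℂ)) q Ψ g C
          fun L => Real.exp (-(a * g L)),
        ∀ κ : ℝ, 0 < κ → ∃ C : ℝ,
          SymLocalAt R (fun g => (U g : Matrix (Fin d) (Fin d) ℂ)) q Ψ g C κ,
        ∃ κ C : ℝ, κ * ‖h‖ < Δ ∧
          SymLocalAt R (fun g => (U g : Matrix (Fin d) (Fin d) ℂ)) q Ψ g C κ]) := by
  refine ⟨?_, ?_⟩
  · intro d L _ G _ _ U q m hm hUq D ψ Ψ hψ hΨ hs
    obtain ⟨ψ', h1, h2, h3⟩ := one_torus (fun g => (U g : Matrix (Fin d) (Fin d) ℂ)) (unit_mul U)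
      (unit_star U) q m hm hUq hψ (nr_one Ψ hΨ) hs
    exact ⟨ψ', h1, by rw [sqrt_normSq, sqrt_normSq]; exact h2, h3⟩
  · intro d R h Δ Ψ hF G _ _ U q hUq hsym
    refine ⟨same_self hF hsym, fun g hg => ?_⟩
    have hT := Pool.Agent.Results.MP_953b23_mp.EveryScale.result.2.1 d R h Δ Ψ hF g hg
    have h0 := hT.out 4 0
    tfae_have 1 → 2 := by
      intro h1 a ha
      obtain ⟨C, hC⟩ := h1 a ha
      exact approx_to_sector hF hsym (unit_mul U) (unit_star U) hUq hg hC
    tfae_have 2 → 1 := by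
      intro h1 a ha
      obtain ⟨C, L₀, hC⟩ := h1 a ha
      refine ⟨C, L₀, fun L _ hL => ?_⟩
      obtain ⟨D, ψ, e1, e2, -, e3⟩ := hC L hL
      exact ⟨D, ψ, e1, butOne_isPEPS e2, e3⟩
    tfae_have 1 → 3 := by
      intro h1 κ hκ
      obtain ⟨C, hC⟩ := h1 3 (by norm_num)
      obtain ⟨L₀, hL₀⟩ := tiny_to_local hF hg hC hκ
      refine ⟨C, L₀, fun L _ hL => ?_⟩
      obtain ⟨a, D, X, e1, e2, e3, e4⟩ := hL₀ L hL
      exact ⟨a, D, X, e1, e2, e3, fun u B hB _ _ => e4 u B hB⟩
    tfae_have 3 → 4 := by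
      intro h1
      have hΔ := hF.gap_pos
      have hh := norm_nonneg h
      obtain ⟨C, hC⟩ := h1 (Δ / (2 * (‖h‖ + 1))) (by positivity)
      refine ⟨_, C, ?_, hC⟩
      rw [div_mul_eq_mul_div, div_lt_iff₀ (by positivity)]
      nlinarith
    tfae_have 4 → 1 := by
      rintro ⟨κ, C, hκ, hC⟩
      exact h0.1 (symlocal_to_low hF hsym hg hκ hC)
    tfae_finish

end Pool.Agent.Results.MP_953b23_mp.SymmetricApproximation
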