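import Pool.Agent.Q204.TS.Loc

/-!
# Gapped ground states on the torus: the same tensor at all sites, and local precision `κ / L²`

Part (A), one torus, no gap: a vector which is translation invariant up to phases and is approximated
by a PEPS with arbitrary tensors of bond dimension `D` is approximated at least as well by a PEPS of
bond dimension `D L²` whose tensors agree at all sites but one; if its momentum is zero, by a PEPS
with the same tensor at all sites.

Part (B): for a gapped family and every scale function `g ≥ log` the following are equivalent: PEPS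
with arbitrary tensors of bond dimension `exp (O (g L))` with errors `exp (-a g L)` for every `a`;
the same with tensors which agree at all sites but one; locally purified mixed states of bond
dimension `exp (O (g L))` with arbitrary tensors whose reduced density matrices on the translates of
the support of the interaction are within `κ / L²` in trace norm of those of the ground state, for
every `κ > 0`; the same for one `κ` with `κ ‖h‖ < Δ`. If the ground states have momentum zero, the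
tensors can be taken the same at all sites.
-/

set_option autoImplicit false

open scoped BigOperators Matrix Matrix.Norms.L2Operator
open Finset Pool.Agent.TH235.PP Pool.Agent.Results.MP_953b23_mp.OverlapBoosting
  Pool.Agent.Results.MP_953b23_mp.ThermalCriterion Pool.Agent.Results.MP_953b23_mp.EveryScale
  Pool.Agent.Q204.TS

namespace Pool.Agent.Results.MP_953b23_mp.TranslationInvariant

theorem butOne_isPEPS {d L : ℕ} [NeZero L] {D : ℕ} {ψ : (Site L → Fin d) → ℂ}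
    (h : IsTIButOne D ψ) : IsPEPS D ψ := by
  obtain ⟨A, A₀, hA⟩ := h
  exact ⟨_, hA⟩

theorem TI_isPEPS {d L : ℕ} [NeZero L] {D : ℕ} {ψ : (Site L → Fin d) → ℂ}
    (h : IsTI D ψ) : IsPEPS D ψ := by
  obtain ⟨A, hA⟩ := h
  exact ⟨_, hA⟩

theorem result :
    (∀ (d L : ℕ) [NeZero L] (D : ℕ) (ψ Ψ : (Site L → Fin d) → ℂ), IsPEPS D ψ → normSq Ψ = 1 →
      ((∀ a : Site L, ∃ c : ℂ, shv a Ψ = c • Ψ) → ∃ ψ' : (Site L → Fin d) → ℂ,
        IsTIButOne (D * L ^ 2) ψ' ∧ Real.sqrt (normSq (ψ' - Ψ)) ≤ Real.sqrt (normSq (ψ - Ψ))) ∧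
      ((∀ a : Site L, shv a Ψ = Ψ) → ∃ ψ' : (Site L → Fin d) → ℂ,
        IsTI (D * L ^ 2) ψ' ∧ Real.sqrt (normSq (ψ' - Ψ)) ≤ Real.sqrt (normSq (ψ - Ψ)))) ∧
    (∀ (d R : ℕ) (h : BoxOp d R) (Δ : ℝ) (Ψ : ∀ L : ℕ, (Site L → Fin d) → ℂ),
      GappedFamily h Δ Ψ → ∀ g : ℕ → ℝ, (∃ L₁ : ℕ, ∀ L, L₁ ≤ L → Real.log L ≤ g L) →
      List.TFAE [
        ∀ a : ℝ, 0 < a → ∃ C : ℝ, ApproxAt Ψ g C fun L => Real.exp (-(a * g L)),
        ∀ a : ℝ, 0 < a → ∃ C : ℝ, ButOneAt Ψ g C fun L => Real.exp (-(a * g L)),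
        ∀ κ : ℝ, 0 < κ → ∃ C : ℝ, LocalAt R Ψ g C κ,
        ∃ κ C : ℝ, κ * ‖h‖ < Δ ∧ LocalAt R Ψ g C κ] ∧
      ((∃ L₁ : ℕ, ∀ (L : ℕ) [NeZero L], L₁ ≤ L → ∀ a : Site L, shv a (Ψ L) = Ψ L) →
        ((∀ a : ℝ, 0 < a → ∃ C : ℝ, TIAt Ψ g C fun L => Real.exp (-(a * g L))) ↔
          ∃ κ C : ℝ, κ * ‖h‖ < Δ ∧ LocalAt R Ψ g C κ))) := by
  refine ⟨?_, ?_⟩
  · intro d L _ D ψ Ψ hψ hΨ
    refine ⟨fun hTI => ?_, fun hTI => ?_⟩
    · obtain ⟨ψ', h1, h2⟩ := to_butOne hψ hΨ hTI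
      exact ⟨ψ', h1, by rw [sqrt_normSq, sqrt_normSq]; exact h2⟩
    · obtain ⟨ψ', h1, h2⟩ := to_TI (Ψ := Ψ) hψ hTI
      exact ⟨ψ', h1, by rw [sqrt_normSq, sqrt_normSq]; exact h2⟩
  · intro d R h Δ Ψ hF g hg
    have hT := Pool.Agent.Results.MP_953b23_mp.EveryScale.result.2.1 d R h Δ Ψ hF g hg
    have h0 := hT.out 4 0
    have hmain : List.TFAE [
        ∀ a : ℝ, 0 < a → ∃ C : ℝ, ApproxAt Ψ g C fun L => Real.exp (-(a * g L)),
        ∀ a : ℝ, 0 < a → ∃ C : ℝ, ButOneAt Ψ g C fun L => Real.exp (-(a * g L)),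
        ∀ κ : ℝ, 0 < κ → ∃ C : ℝ, LocalAt R Ψ g C κ,
        ∃ κ C : ℝ, κ * ‖h‖ < Δ ∧ LocalAt R Ψ g C κ] := by
      tfae_have 1 → 2 := by
        intro h1 a ha
        obtain ⟨C, hC⟩ := h1 a ha
        exact ⟨_, approx_to_butOne hF hg hC⟩
      tfae_have 2 → 1 := by
        intro h1 a ha
        obtain ⟨C, L₀, hC⟩ := h1 a ha
        refine ⟨C, L₀, fun L _ hL => ?_⟩
        obtain ⟨D, ψ, e1, e2, e3⟩ := hC L hL
        exact ⟨D, ψ, e1, butOne_isPEPS e2, e3⟩
      tfae_have 1 → 3 := by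
        intro h1 κ hκ
        obtain ⟨C, hC⟩ := h1 3 (by norm_num)
        exact ⟨C, tiny_to_local hF hg hC hκ⟩
      tfae_have 3 → 4 := by
        intro h1
        have hΔ := hF.gap_pos
        have hh := norm_nonneg h
        obtain ⟨C, hC⟩ := h1 (Δ / (2 * (‖h‖ + 1))) (by positivity)
        refine ⟨_, C, ?_, hC⟩
        rw [div_mul_eq_mul_div, div_lt_iff₀ (by positivity)]
        nlinarith
      tfae_have 4 → 1 := by
        rintro ⟨κ, C, hκ, hC⟩
        exact h0.1 (local_to_low hF hg hκ hC)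
      tfae_finish
    refine ⟨hmain, fun hTI => ⟨fun h1 => ?_, fun h1 => ?_⟩⟩
    · refine (hmain.out 0 3).1 ?_
      intro a ha
      obtain ⟨C, L₀, hC⟩ := h1 a ha
      refine ⟨C, L₀, fun L _ hL => ?_⟩
      obtain ⟨D, ψ, e1, e2, e3⟩ := hC L hL
      exact ⟨D, ψ, e1, TI_isPEPS e2, e3⟩
    · have h2 := (hmain.out 0 3).2 h1
      intro a ha
      obtain ⟨C, hC⟩ := h2 a ha
      exact ⟨_, approx_to_TI hg hTI hC⟩

end Pool.Agent.Results.MP_953b23_mp.TranslationInvariant
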